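import Pool.Agent.H120Z.SFP.Main

namespace Pool.Agent.Results.MP_c3e920_pr.ASlowPath

open Pool.Agent.H120Z.SFP MeasureTheory ProbabilityTheory Filter

/-- Scale-free percolation with `d = 1`, `α = 3`, `λ = 1`, `τ = 3/2`, `ℓ ≡ 1` (so `γ = 3/2`) and
standard exponential edge-weights: `I(L) < ∞`, almost surely a shortest exploding path exists, and
none of them grows double-exponentially. -/
theorem result {Ω : Type} [MeasurableSpace Ω] (P : Measure Ω) [IsProbabilityMeasure P]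
    (W : ℤ → Ω → ℝ) (E L : Sym2 ℤ → Ω → ℝ)
    (mW : ∀ x, Measurable (W x)) (mE : ∀ e, Measurable (E e)) (mL : ∀ e, Measurable (L e))
    (hind : iIndepFun (β := fun _ => ℝ) (Sum.elim W (Sum.elim E L)) P)
    (hW : ∀ (x : ℤ) (t : ℝ), 1 ≤ t →
      P {ω | t < W x ω} = ENNReal.ofReal (t ^ (-((3 / 2 : ℝ) - 1))))
    (hE : ∀ e, HasLaw (E e) (volume.restrict (Set.Icc (0 : ℝ) 1)) P)
    (hL : ∀ e, HasLaw (L e) (expMeasure 1) P) :
    (∫⁻ y in Set.Ioi (0 : ℝ),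
      ENNReal.ofReal (genInv (expMeasure 1) (Real.exp (-Real.exp y))) < ⊤) ∧
    ∀ᵐ ω ∂P,
      (∃ v, IsShortest (Adj 3 1 (fun x => W x ω) (fun e => E e ω)) (fun e => L e ω) v) ∧
      ∀ v, IsShortest (Adj 3 1 (fun x => W x ω) (fun e => E e ω)) (fun e => L e ω) v →
        ∀ b : ℝ, 1 < b → ∃ᶠ n in atTop, |(v n : ℝ)| < Real.exp (b ^ n) :=
  ⟨IL_finite, Model.main ⟨mW, mE, mL, hind, fun x t ht => by
    rw [hW x t ht]; norm_num, hE, hL⟩⟩

end Pool.Agent.Results.MP_c3e920_pr.ASlowPath
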